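import Pool.Agent.Y72.Ar.Main

/-!
# The L-theoretic Farrell–Jones conjecture for torsionfree groups (Q1): Arf invariants

`R = 𝔽₂`, trivial involution.  A quadratic form over `𝔽₂[Γ]` on a free module of rank `n` is a
matrix `θ`; it is nonsingular if `θ + θ*` is invertible, where `(θ*)ᵢⱼ(g) = θⱼᵢ(g⁻¹)`.  For an
integral representation `ρ` of `Γ` of degree `d` preserving a symmetric form `b` of odd
determinant, `θ` gives the quadratic form `x ↦ ∑ xᵢᵀ θᵢⱼ(g) b ρ(g) xⱼ` over `𝔽₂` in `n d`
variables.  Here `Γ` is an arbitrary group.  If `ρ(Γ)` is nilpotent, or if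
`tr ρ(c) ≡ d mod 2` for all `c` which are conjugate to `c⁻¹`, then the Arf invariant of the form of
`ρ` is `d` times the Arf invariant of the form of the trivial representation.

For the permutation representations of finite coverings and torsionfree `Γ` this is a consequence
of the surjectivity of the assembly map in even degrees.
-/

namespace Pool.Agent.Results.MP_8a3537_gt.ArfInvariants

open Pool.Agent.Y72.Ar Matrix

/-- For every group `Γ`, every quadratic form `θ` over `𝔽₂[Γ]` whose symmetrisation is the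
invertible matrix `A`, and every integral representation `ρ` of degree `d` which preserves a
symmetric form `b` of odd determinant: the quadratic form `form b ρ θ` over `𝔽₂` is nonsingular and
its Arf invariant is `d` times the Arf invariant of the augmentation of `θ`, provided that `ρ(Γ)`
is nilpotent or `tr ρ(c) ≡ d mod 2` for all `c` which are conjugate to their inverse. -/
theorem result {Γ : Type*} [Group Γ] {n d : ℕ}
    (θ : Matrix (Fin n) (Fin n) (MonoidAlgebra (ZMod 2) Γ))
    (A : (Matrix (Fin n) (Fin n) (MonoidAlgebra (ZMod 2) Γ))ˣ)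
    (hA : ∀ i j g, (A.val i j).coeff g = (θ i j).coeff g + (θ j i).coeff g⁻¹)
    (ρ : Γ →* GL (Fin d) ℤ) (b : Matrix (Fin d) (Fin d) ℤ) (hb : bᵀ = b) (hb2 : Odd b.det)
    (hρ : ∀ g, (ρ g).valᵀ * b * (ρ g).val = b)
    (hreal : Group.IsNilpotent ρ.range ∨
      ∀ c g : Γ, g * c * g⁻¹ = c⁻¹ → Even ((ρ c).val.trace - d)) :
    (form b ρ θ + (form b ρ θ)ᵀ).det ≠ 0 ∧ (aug θ + (aug θ)ᵀ).det ≠ 0 ∧
      arf (form b ρ θ) = d * arf (aug θ) :=
  arf_main θ A hA ρ b hb hb2 hρ hreal

end Pool.Agent.Results.MP_8a3537_gt.ArfInvariants
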