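import Pool.Agent.Y477.RForm3
import Pool.Agent.TH6.LF.Sym

set_option autoImplicit false

/-! For every ring with involution `R` and every torsion-free group `G`, `√2` is the exact critical
distance from the hyperbolic form for quadratic forms over `RG`, measured by support patterns:
closer forms are orthogonal sums of forms induced from cyclic subgroups, and at distance at most
`√2` every form of even rank is represented stably. -/

namespace Pool.Agent.Results.MP_8a3537_gt.CriticalDistance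

open TH57.Thr TH6.LF TH6.PF Matrix

theorem result (R : Type) [Ring R] [StarRing R] (G : Type) [Group G]
    (htf : ∀ g : G, ∀ k : ℕ, 0 < k → g ^ k = 1 → g = 1) (w : G →* ℤˣ) :
    (∀ (k : ℕ) (ψ : Matrix (Fin k ⊕ Fin k) (Fin k ⊕ Fin k) (MonoidAlgebra R G)) (c : ℝ),
      c ^ 2 < 2 → NormLE (symPat (ψ - hyp (MonoidAlgebra R G) (Fin k))) c →
      ∃ (ρ : Fin k ⊕ Fin k → Fin k ⊕ Fin k) (u : Fin k ⊕ Fin k → G)
        (C : Fin k ⊕ Fin k → Subgroup G)
        (θ : ∀ a, Matrix {i // ρ i = a} {i // ρ i = a} (MonoidAlgebra R (C a))),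
        (∀ a, IsCyclic (C a)) ∧
        (dmU R u).val * ψ * sadj w (dmU R u).val = blockSum ρ ρ C θ ∧
        ∀ ε : ℤ, IsUnit (ψ + ε • sadj w ψ) →
          ∀ a, IsUnit (θ a + ε • sadj (w.comp (C a).subtype) (θ a))) ∧
    (∀ (k : ℕ) (ψ : Matrix (Fin k ⊕ Fin k) (Fin k ⊕ Fin k) (MonoidAlgebra R G)),
      ∃ (m : ℕ) (P : (Matrix ((Fin k ⊕ Fin k) ⊕ (Fin m ⊕ Fin m))
          ((Fin k ⊕ Fin k) ⊕ (Fin m ⊕ Fin m)) (MonoidAlgebra R G))ˣ),
        P ∈ commutator (Matrix ((Fin k ⊕ Fin k) ⊕ (Fin m ⊕ Fin m))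
          ((Fin k ⊕ Fin k) ⊕ (Fin m ⊕ Fin m)) (MonoidAlgebra R G))ˣ ∧
        NormLE (symPat (P.val * addHyp (Fin m) ψ * sadj w P.val
          - addHyp (Fin m) (hyp (MonoidAlgebra R G) (Fin k)))) (Real.sqrt 2)) := by
  refine ⟨fun k ψ c hc hN => ?_, fun k ψ => Y477.RForm.dist_form_fin w k ψ⟩
  obtain ⟨ρ, u, C, θ, h1, h2, h3⟩ :=
    thin_forms w 2 two_pos (by norm_num) ψ (Y477.RForm.near_pattern ψ c hc hN)
  refine ⟨ρ, u, C, θ, fun a => ?_, h2, h3⟩
  obtain ⟨g, hg⟩ := h1 a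
  exact isCyclic_of_finiteIndex (fun x k hk hx => Subtype.ext
    (htf x.1 k hk (by simpa using congrArg Subtype.val hx))) (Subgroup.zpowers g) inferInstance hg

end Pool.Agent.Results.MP_8a3537_gt.CriticalDistance
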