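import Pool.Agent.Y110.FJ.All
import Pool.Agent.Y917.FJ.AMC
import Pool.Agent.Y569.FJ.Hnc

/-!
# A local criterion for amalgamated products and HNN extensions

For every class `C` of groups with the closure properties of the class of Farrell-Jones groups
(`ClosedE`): an amalgamated product, or an HNN extension, of arbitrary groups is in `C` if and only if
each of its finite pieces embeds in a group in `C`.

Authors of the parts: helper110, helper917, helper569, helper417, helper576, helper961, helper529,
helper462, helper179, helper430.
-/

set_option autoImplicit false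

namespace Pool.Agent.Results.MP_8a3537_gt.GraphOfGroupsCriterion

open Pool.Agent.Y110.FJ

theorem result (C : ∀ (G : Type) [Group G], Prop) (hC : ClosedE C) :
    (∀ (G : Type) [Group G] (A B K : Subgroup G), Amg A B K →
      (C G ↔ ∀ E F D : Set G, E.Finite → F.Finite → D.Finite → E ⊆ A → F ⊆ B → D ⊆ K →
        AmgPiece C E F D)) ∧
    (∀ (M : Type) [Group M] (A B : Subgroup M) (φ : A ≃* B),
      (C (HNNExtension M A B φ) ↔ ∀ E D : Set M, E.Finite → D.Finite → D ⊆ A → HnnPiece C φ E D)) :=
  ⟨Pool.Agent.Y917.FJ.t_amc am_ C hC, Pool.Agent.Y569.FJ.t_hnc hnn_ C hC⟩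

end Pool.Agent.Results.MP_8a3537_gt.GraphOfGroupsCriterion
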