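import Pool.Agent.Y483.PI.DS3

/-!
The reduced parts of the L-groups of `N_σ ⋊ Γ_σ` form a direct sum in the L-group of `N ⋊ Γ`.

`A` is a ring with involution and `lgr A ε` is the functor `G ↦ L₀(A[G]; ε)` (nonsingular
`ε`-quadratic forms on finitely generated projective modules over the group ring modulo hyperbolic
ones), not tensored with `ℚ`.

`Γ` is an arbitrary group, acting on a set `V` and on a group `N` with endomorphisms `e_S`, `S ⊆ V`,
such that `e_S e_T = e_{S ∩ T}` and `γ e_S = e_{γ S} γ`, and each element of `N` is fixed by `e_S` for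
some finite `S`; `N_S` is the image of `e_S` and `Γ_σ` is the group of the elements of `Γ` which fix
the elements of `σ`. Let `σ₁, …, σ_k` be finite subsets of `V` in different orbits of `Γ`, each of
them rigid: the elements of `Γ` which preserve `σ_i` fix the elements of `σ_i`. Let `y_i` be an
element of `L₀(A[N_{σ_i} ⋊ Γ_{σ_i}]; ε)` which is killed by the endomorphisms `(n, γ) ↦ (e_U n, γ)`
for the proper subsets `U` of `σ_i`. If the sum of the images of the `y_i` in `L₀(A[N ⋊ Γ]; ε)` is
zero, then all `y_i` are zero.
-/

namespace Pool.Agent.Results.MP_8a3537_gt.IntegralDirectSum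

open Pool.Agent.Y477.IW Pool.Agent.Y483.PW Pool.Agent.Y483.PI

theorem result (A : Type) [Ring A] [StarRing A] (ε : ℤˣ)
    {Γ N V : Type} [Group Γ] [Group N] [MulAction Γ V] (s : Sys Γ N V) :
    DirectSum (lgr A ε) s :=
  directSum (hasPTI_lgr A ε) (innTriv_lgr A ε) s

end Pool.Agent.Results.MP_8a3537_gt.IntegralDirectSum
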